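import Mathlib

/-!
# Multiples of an algebraic number (MP_c307ca_nt): definitions and the statements of the packets
-/

set_option autoImplicit false

open Finset

namespace Pool.Agent.Helper98.Lang

/-- distance to the nearest integer -/
noncomputable def nd (x : ℝ) : ℝ := |x - round x|

/-- Roth's property: irrationality exponent 2 -/
def RothP (ξ : ℝ) : Prop := ∀ δ : ℝ, 0 < δ → ∃ c : ℝ, 0 < c ∧ ∀ n : ℕ, 1 ≤ n →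
  c * (n : ℝ) ^ (-(1 + δ)) ≤ nd (n * ξ)

/-- number of divisors of `n` in `[d, e d]` -/
noncomputable def win (n d : ℕ) : ℕ :=
  (n.divisors.filter (fun d' : ℕ => d ≤ d' ∧ (d' : ℝ) ≤ Real.exp 1 * d)).card

/-- Hooley's function -/
noncomputable def DD (n : ℕ) : ℕ := n.divisors.sup (win n)

/-- `q`-tuples of divisors of `n` which are pairwise within a factor `e` -/
noncomputable def tup (q n : ℕ) : Finset (Fin q → ℕ) :=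
  (Fintype.piFinset fun _ : Fin q => n.divisors).filter
    (fun d => ∀ i j, (d i : ℝ) ≤ Real.exp 1 * d j)

noncomputable def NQ (q n : ℕ) : ℕ := (tup q n).card

/-- primes `a < p ≤ b` -/
def pr (a b : ℕ) : Finset ℕ := (Ioc a b).filter Nat.Prime

/-- the product of the primes `≤ y` -/
def PP (y : ℕ) : ℕ := ∏ p ∈ pr 0 y, p

/-- `∏_{p ≤ y} (1 + 1/p)` -/
noncomputable def V (y : ℕ) : ℝ := ∏ p ∈ pr 0 y, (1 + 1 / (p : ℝ))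

/-- the `q`-th moment sum -/
noncomputable def F (q y : ℕ) : ℝ :=
  ∑ n ∈ (PP y).divisors, (NQ q n : ℝ) ^ (1 / (q : ℝ)) / n

/-- number of divisors within a factor `e` of `d` -/
noncomputable def wn (n d : ℕ) : ℕ :=
  (n.divisors.filter (fun d' : ℕ => (d : ℝ) ≤ Real.exp 1 * d' ∧ (d' : ℝ) ≤ Real.exp 1 * d)).card

/-- all prime factors are `> w` -/
def Rough (w r : ℕ) : Prop := ∀ p : ℕ, p.Prime → p ∣ r → w < p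

/-- all prime factors are `≤ y` -/
def Smooth (y b : ℕ) : Prop := ∀ p : ℕ, p.Prime → p ∣ b → p ≤ y

/-- centred power sums -/
noncomputable def TT (k n : ℕ) : ℕ := ∑ d ∈ n.divisors, wn n d ^ k

/-! ### the statements -/

/-- P1. Roth's theorem. -/
def GRoth : Prop := ∀ ξ : ℝ, IsAlgebraic ℚ ξ → Irrational ξ → RothP ξ

/-- P2. Fejér majorants and their means over multiples. -/
def GFej : Prop := ∀ ξ : ℝ, RothP ξ → ∀ δ : ℝ, 0 < δ → ∃ C : ℝ, 0 < C ∧ ∀ H : ℕ, 1 ≤ H →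
  ∃ (G : ℝ → ℝ) (c0 : ℝ), (∀ t, 0 ≤ G t) ∧ (∀ t, G t ≤ 3) ∧
    (∀ t, nd t ≤ 1 / (2 * H) → 1 ≤ G t) ∧ 1 / H ≤ c0 ∧ c0 ≤ 3 / H ∧
    ∀ d M : ℕ, 1 ≤ d →
      |∑ n ∈ Icc 1 M, G ((n : ℝ) * (d * ξ)) - c0 * M| ≤ C * (H : ℝ) ^ δ * (d : ℝ) ^ (1 + δ)

open Classical in
/-- P3. Selberg's upper bound sieve. -/
def GSel : Prop := ∀ (X b w : ℕ) (g : ℕ → ℝ) (Y E : ℝ), 1 ≤ b → 2 ≤ w → (∀ n, 0 ≤ g n) →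
  0 ≤ Y → 0 ≤ E →
  (∀ m, 1 ≤ m → m ≤ w ^ 2 →
    |∑ n ∈ (Icc 1 X).filter (fun n => b * m ∣ n), g n - Y / (b * m)| ≤ E) →
  ∑ n ∈ (Icc 1 X).filter (fun n => b ∣ n ∧ Rough w (n / b)), g n
    ≤ Y / (b * Real.log w) + w ^ 2 * E

/-- P4. Submultiplicativity of `DD`. -/
def GDDM : Prop :=
  (∀ (n : ℕ) (T : Finset ℕ), n ≠ 0 → T ⊆ n.divisors →
    (∀ s ∈ T, ∀ t ∈ T, (s : ℝ) ≤ Real.exp 1 * t) → T.card ≤ DD n) ∧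
  (∀ m n : ℕ, m ≠ 0 → n ≠ 0 → DD (m * n) ≤ m.divisors.card * DD n) ∧
  (∀ n : ℕ, DD n ≤ n.divisors.card)

/-- P5. The prefix decomposition. -/
def GPref : Prop := ∀ z n : ℕ, 1 ≤ z → z < n → ∃ b r p s : ℕ, n = b * r ∧ 1 ≤ b ∧ b ≤ z ∧
  p.Prime ∧ p ∣ r ∧ (∀ p', p'.Prime → p' ∣ r → p ≤ p') ∧ Smooth p b ∧
  z < b * p ∧ 1 ≤ s ∧ z < p ^ (s + 1) ∧ (s = 1 ∨ p ^ s ≤ z)

/-- P6. `DD ^ q ≤ NQ`. -/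
def GDDNQ : Prop := ∀ q n : ℕ, 1 ≤ q → n ≠ 0 → DD n ^ q ≤ NQ q n

/-- P7. One more prime: the cross terms. -/
def GCross : Prop := ∀ q n : ℕ, 2 ≤ q → n ≠ 0 →
  (∀ p : ℕ, p.Prime → ¬ p ∣ n → 2 * NQ q n ≤ NQ q (n * p)) ∧
  ∀ (S : Finset ℕ) (K : ℝ), (∀ p ∈ S, p.Prime ∧ ¬ p ∣ n) →
    (∀ x : ℝ, 0 < x → ∑ p ∈ S.filter (fun p : ℕ => x ≤ p ∧ (p : ℝ) ≤ Real.exp 2 * x),
      1 / (p : ℝ) ≤ K) →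
    ∑ p ∈ S, ((NQ q (n * p) : ℝ) - 2 * NQ q n) / p
      ≤ K * ∑ j ∈ Ico 1 q, (q.choose j : ℝ) * (TT (j - 1) n * TT (q - j - 1) n)

/-- P8. Interpolation. -/
def GInter : Prop := ∀ q : ℕ, 2 ≤ q → ∃ C : ℝ, 0 < C ∧ ∀ n : ℕ, n ≠ 0 →
  ∑ j ∈ Ico 1 q, (q.choose j : ℝ) * (TT (j - 1) n * TT (q - j - 1) n)
    ≤ C * (n.divisors.card : ℝ) ^ ((q : ℝ) / (q - 1)) *
      (NQ q n : ℝ) ^ (((q : ℝ) - 2) / (q - 1))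

/-- P9. Mertens type bounds. -/
def GMer : Prop := ∃ C : ℝ, 1 ≤ C ∧ (∀ y : ℕ, 2 ≤ y → V y ≤ C * Real.log y) ∧
  (∀ y : ℕ, 2 ≤ y → ∑ p ∈ pr 0 y, Real.log p / p ≤ C * Real.log y) ∧
  (∀ a b : ℕ, 2 ≤ a → ∀ x : ℝ, 0 < x →
    ∑ p ∈ (pr a b).filter (fun p : ℕ => x ≤ p ∧ (p : ℝ) ≤ Real.exp 2 * x), 1 / (p : ℝ)
      ≤ C / Real.log a) ∧
  (∀ a b : ℕ, a ≤ b → ∑ p ∈ pr a b, 1 / (p : ℝ) ≤ 2 * Real.log (V b / V a)) ∧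
  ∀ M : ℝ, ∃ y : ℕ, M ≤ V y

/-- the sum over the cross terms of the primes in `(a, b]` -/
noncomputable def CR (q a b n : ℕ) : ℝ :=
  ∑ p ∈ (pr a b).filter (fun p => ¬ p ∣ n),
    ((NQ q (n * p) : ℝ) - 2 * NQ q n) ^ (1 / (q : ℝ)) / p

/-- P10. Gronwall. -/
def GGron : Prop := ∀ q a b : ℕ, 2 ≤ q → 1 ≤ a → a ≤ b →
  F q b ≤ (V b / V a) ^ (1 + 1 / (q : ℝ)) * (F q a + ∑ n ∈ (PP b).divisors, CR q a b n / n)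

/-- P11. The block inequality. -/
def GBlock : Prop := ∀ (q : ℕ) (B : ℝ), 2 ≤ q → 1 ≤ B → ∃ C : ℝ, 0 < C ∧ ∀ a b : ℕ, 2 ≤ a →
  a ≤ b → V b ≤ B * V a →
  F q b ≤ (V b / V a) ^ (1 + 1 / (q : ℝ)) * F q a
    + C * V b ^ (2 / ((q : ℝ) - 1) - 1 / q) * F q b ^ (((q : ℝ) - 2) / (q - 1))

/-- P12. The moment bound. -/
def GMom : Prop := ∀ q : ℕ, 2 ≤ q → ∃ C : ℝ, 0 < C ∧ ∀ y : ℕ, 1 ≤ y →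
  F q y ≤ C * V y ^ (1 + 2 / (q : ℝ))

open Classical in
/-- P13. The average of Hooley's function over smooth numbers, with Rankin's weight. -/
def GRank : Prop := ∀ lam η : ℝ, 0 < lam → 0 < η → ∃ (C : ℝ) (y0 : ℕ), 0 < C ∧ 2 ≤ y0 ∧
  ∀ y z : ℕ, y0 ≤ y → ∀ β : ℝ, 0 ≤ β → β ≤ lam / Real.log y →
    ∑ b ∈ (Icc 1 z).filter (Smooth y), (DD b : ℝ) * (b : ℝ) ^ (β - 1) ≤ C * Real.log y ^ (1 + η)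

/-- the integers of class `s` -/
def Cls (z s n : ℕ) : Prop := ∃ b r p : ℕ, n = b * r ∧ 1 ≤ b ∧ b ≤ z ∧
  p.Prime ∧ p ∣ r ∧ (∀ p', p'.Prime → p' ∣ r → p ≤ p') ∧ Smooth p b ∧
  z < b * p ∧ z < p ^ (s + 1) ∧ (s = 1 ∨ p ^ s ≤ z)

/-- the hypotheses on the weights: level of distribution `z ^ 2` -/
def Lev (X : ℕ) (g : ℕ → ℝ) (Y E : ℝ) (z : ℕ) : Prop :=
  (∀ n, 0 ≤ g n) ∧ 0 ≤ Y ∧ 0 ≤ E ∧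
    ∀ m : ℕ, 1 ≤ m → m ≤ z ^ 2 → |∑ n ∈ (Icc 1 X).filter (fun n => m ∣ n), g n - Y / m| ≤ E

open Classical in
/-- P14. The contribution of class `s`. -/
def GCls : Prop := ∀ (A : ℕ) (η : ℝ), 0 < η → ∃ (C : ℝ) (y0 : ℕ), 0 < C ∧ 4 ^ (A + 2) ≤ y0 ∧
  ∀ (z X s : ℕ) (g : ℕ → ℝ) (Y E : ℝ), X ≤ z ^ A → Lev X g Y E z → 1 ≤ s → y0 ^ s ≤ z →
    ∑ n ∈ (Icc 1 X).filter (fun n => Cls z s n), g n * DD n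
      ≤ C * Real.exp (-(s : ℝ)) * Y * Real.log z ^ η + 2 ^ (A * (s + 1)) * (z : ℝ) ^ 3 * E

open Classical in
/-- P15. Small primes. -/
def GSm : Prop := ∀ (A y0 : ℕ), ∃ C : ℝ, 0 < C ∧
  ∀ (z X : ℕ) (g : ℕ → ℝ) (Y E : ℝ), 1 ≤ z → X ≤ z ^ A → Lev X g Y E z →
    ∑ n ∈ (Icc 1 X).filter (fun n => ∃ b r : ℕ, n = b * r ∧ b ≤ z ∧ Smooth y0 b ∧ z < b * y0),
        g n * DD n
      ≤ C * Y * (z : ℝ) ^ (-(1 : ℝ) / 4) + C * E * z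

/-- P16. The Nair-Tenenbaum theorem for Hooley's function. -/
def GNT : Prop := ∀ (A : ℕ) (η : ℝ), 0 < η → ∃ (C : ℝ) (z0 : ℕ), 0 < C ∧
  ∀ (z X : ℕ) (g : ℕ → ℝ) (Y E : ℝ), z0 ≤ z → X ≤ z ^ A → Lev X g Y E z → (∀ n, g n ≤ 3) →
    (z : ℝ) ^ 4 ≤ Y → (z : ℝ) ^ 4 * E ≤ Y →
    ∑ n ∈ Icc 1 X, g n * DD n ≤ C * Y * Real.log z ^ η

/-- P17. One dyadic block of `a` and of `q`. -/
def GDyad : Prop := ∀ ξ : ℝ, RothP ξ → ∀ ε η κ A c : ℝ, 0 < ε → 0 < η → 0 < κ → κ ≤ A → 0 < c →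
  ∃ (C : ℝ) (N0 : ℕ), 0 < C ∧ ∀ N Q : ℕ, N0 ≤ N → (N : ℝ) ^ κ ≤ Q → (Q : ℝ) ≤ (N : ℝ) ^ A →
    ({a : ℕ | N < 2 * a ∧ a ≤ N ∧ ∃ q : ℕ, Q ≤ q ∧ q < 2 * Q ∧
      nd ((a : ℝ) * q * ξ) ≤ c / (q * Real.log q ^ (1 + ε))}.ncard : ℝ)
      ≤ C * N * Real.log N ^ (η - 1 - ε)

/-- P18. Large denominators. -/
def GLarge : Prop := ∀ ξ : ℝ, RothP ξ → ∀ ε ε' κ A c : ℝ, 0 < ε → ε' < ε → 0 < κ → 0 < c →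
  ∃ N0 : ℕ, ∀ N : ℕ, N0 ≤ N →
    ({a : ℕ | 1 ≤ a ∧ a ≤ N ∧ ∃ q : ℕ, (N : ℝ) ^ κ ≤ q ∧ (q : ℝ) ≤ (N : ℝ) ^ A ∧
      nd ((a : ℝ) * q * ξ) ≤ c / (q * Real.log q ^ (1 + ε))}.ncard : ℝ)
      ≤ N / Real.log N ^ ε'

/-- P19. Small denominators. -/
def GSmall : Prop := ∀ ε : ℝ, 0 < ε → ∃ C : ℝ, 0 < C ∧ ∀ ξ : ℝ, RothP ξ → ∀ c : ℝ, 0 < c →
  ∃ N0 : ℕ, ∀ N : ℕ, N0 ≤ N →
    ({a : ℕ | 1 ≤ a ∧ a ≤ N ∧ ∃ q : ℕ, 2 ≤ q ∧ (q : ℝ) ≤ (N : ℝ) ^ ((1 : ℝ) / 4) ∧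
      nd ((a : ℝ) * q * ξ) ≤ c / (q * Real.log q ^ (1 + ε))}.ncard : ℝ)
      ≤ C * c * N

/-- the final statement -/
def Final : Prop := ∀ ε : ℝ, 0 < ε → ∃ C : ℝ, ∀ ξ : ℝ, IsAlgebraic ℚ ξ → Irrational ξ →
  (∀ c A : ℝ, 0 < c → ∃ N0 : ℕ, ∀ N : ℕ, N0 ≤ N →
    ({a : ℕ | 1 ≤ a ∧ a ≤ N ∧ ∃ (p : ℤ) (q : ℕ), 2 ≤ q ∧ (q : ℝ) ≤ (N : ℝ) ^ A ∧
      |(a : ℝ) * ξ - (p : ℝ) / (q : ℝ)| ≤ c / ((q : ℝ) ^ 2 * Real.log (q : ℝ) ^ (1 + ε))}.ncard : ℝ)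
      ≤ C * c * N) ∧
  ∀ ε' κ A c : ℝ, ε' < ε → 0 < κ → 0 < c → ∃ N0 : ℕ, ∀ N : ℕ, N0 ≤ N →
    ({a : ℕ | 1 ≤ a ∧ a ≤ N ∧ ∃ (p : ℤ) (q : ℕ), (N : ℝ) ^ κ ≤ q ∧ (q : ℝ) ≤ (N : ℝ) ^ A ∧
      |(a : ℝ) * ξ - (p : ℝ) / (q : ℝ)| ≤ c / ((q : ℝ) ^ 2 * Real.log (q : ℝ) ^ (1 + ε))}.ncard : ℝ)
      ≤ N / Real.log N ^ ε'

end Pool.Agent.Helper98.Lang
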