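import Pool.Agent.Helper98.Lang.Small2
import Pool.Agent.Helper89.Lang.Roth
import Pool.Agent.Helper8.Lang.FEJ
import Pool.Agent.Helper31.Lang.SEL
import Pool.Agent.Helper27.Lang.DDNQ
import Pool.Agent.Helper33.Lang.CROSS
import Pool.Agent.Helper85.Lang.INTER
import Pool.Agent.Helper87.Lang.MER
import Pool.Agent.Helper26.Lang.GRON
import Pool.Agent.Helper73.Lang.BLOCK
import Pool.Agent.Helper88.Lang.MOM
import Pool.Agent.Helper3.Lang.RANK
import Pool.Agent.Helper53.Lang.CLS
import Pool.Agent.Helper88.Lang.SM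
import Pool.Agent.Helper61.Lang.NT
import Pool.Agent.Helper54.Lang.DYAD
import Pool.Agent.Helper88.Lang.LARGE

/-!
# Multiples of an algebraic number: assembly
-/

set_option autoImplicit false

namespace Pool.Agent.Helper98.Lang

theorem moments : GMom :=
  Pool.Agent.Helper88.Lang.mom
    (block Pool.Agent.Helper33.Lang.cross Pool.Agent.Helper85.Lang.inter
      Pool.Agent.Helper87.Lang.mer (Pool.Agent.Helper26.Lang.gron Pool.Agent.Helper33.Lang.cross))
    Pool.Agent.Helper87.Lang.mer

theorem rankAll (hD : GDDM) : GRank :=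
  rank hD Pool.Agent.Helper27.Lang.ddnq Pool.Agent.Helper87.Lang.mer moments

theorem clsAll (hD : GDDM) : GCls :=
  Pool.Agent.Helper53.Lang.cls (rankAll hD) Pool.Agent.Helper31.Lang.sel hD

theorem ntAll (hP : GPref) (hD : GDDM) : GNT :=
  Pool.Agent.Helper61.Lang.nt hP hD (clsAll hD) (Pool.Agent.Helper88.Lang.sm hD)

theorem largeAll (hP : GPref) (hD : GDDM) : GLarge :=
  Pool.Agent.Helper88.Lang.large (dyad Pool.Agent.Helper8.Lang.fej (ntAll hP hD) hD)

theorem finalAll (hP : GPref) (hD : GDDM) : Final2 :=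
  final2 Helper89Roth.roth (largeAll hP hD) (small2 Pool.Agent.Helper8.Lang.fej)

end Pool.Agent.Helper98.Lang
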