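import Pool.Agent.Helper98.Lang.Defs

/-!
# The prefix decomposition and submultiplicativity of Hooley's function
-/

set_option autoImplicit false

open Finset

namespace Pool.Agent.Helper98.Lang

open Classical in
theorem pref98 : GPref := by
  intro z n hz hn
  set S : Finset ℕ := n.divisors.filter (fun b => b ≤ z ∧ ∀ p', p'.Prime → p' ∣ b →
    ∀ q, q.Prime → q ∣ n / b → p' ≤ q) with hS
  have hn0 : n ≠ 0 := by omega
  have h1 : 1 ∈ S := by
    rw [hS, Finset.mem_filter]
    refine ⟨Nat.one_mem_divisors.2 hn0, hz, ?_⟩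
    intro p' hp' hp1
    exact absurd (Nat.dvd_one.1 hp1) hp'.one_lt.ne'
  have hne : S.Nonempty := ⟨1, h1⟩
  set b := S.max' hne with hb
  have hbS : b ∈ S := Finset.max'_mem _ _
  rw [hS, Finset.mem_filter] at hbS
  obtain ⟨hbd, hbz, hbp⟩ := hbS
  have hbn : b ∣ n := Nat.dvd_of_mem_divisors hbd
  have hb0 : b ≠ 0 := by
    rintro h
    rw [h] at hbn
    exact hn0 (Nat.eq_zero_of_zero_dvd hbn)
  obtain ⟨r, hr⟩ := hbn
  have hrb : n / b = r := by rw [hr]; exact Nat.mul_div_cancel_left r (Nat.pos_of_ne_zero hb0)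
  rw [hrb] at hbp
  have hr1 : r ≠ 1 := by
    rintro rfl
    rw [mul_one] at hr
    omega
  have hr0 : r ≠ 0 := by
    rintro rfl
    rw [mul_zero] at hr
    exact hn0 hr
  set p := r.minFac with hp
  have hpp : p.Prime := Nat.minFac_prime hr1
  have hpr : p ∣ r := Nat.minFac_dvd r
  have hmin : ∀ p', p'.Prime → p' ∣ r → p ≤ p' := fun p' hp' h =>
    Nat.minFac_le_of_dvd hp'.two_le h
  have hsm : Smooth p b := fun p' hp' h => hbp p' hp' h p hpp hpr
  have hbp2 : z < b * p := by
    by_contra hcon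
    push Not at hcon
    obtain ⟨t, ht⟩ := hpr
    have hmem : b * p ∈ S := by
      rw [hS, Finset.mem_filter]
      refine ⟨Nat.mem_divisors.2 ⟨⟨t, by rw [hr, ht]; ring⟩, hn0⟩, hcon, ?_⟩
      have hdiv : n / (b * p) = t := by
        have : n = b * p * t := by rw [hr, ht]; ring
        rw [this]
        exact Nat.mul_div_cancel_left t (Nat.mul_pos (Nat.pos_of_ne_zero hb0) hpp.pos)
      rw [hdiv]
      intro p' hp' hp'b q hq hqt
      have hqr : q ∣ r := by rw [ht]; exact Dvd.dvd.mul_left hqt p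
      have h2 : p ≤ q := hmin q hq hqr
      rcases (Nat.Prime.dvd_mul hp').1 hp'b with h | h
      · exact (hsm p' hp' h).trans h2
      · rw [(Nat.prime_dvd_prime_iff_eq hp' hpp).1 h]
        exact h2
    have h3 : b * p ≤ b := Finset.le_max' S _ hmem
    have h4 : b * 1 < b * p := Nat.mul_lt_mul_of_pos_left hpp.one_lt (Nat.pos_of_ne_zero hb0)
    omega
  refine ⟨b, r, p, max 1 (Nat.log p z), hr, Nat.pos_of_ne_zero hb0, hbz, hpp, hpr, hmin, hsm,
    hbp2, le_max_left _ _, ?_, ?_⟩
  · have h5 : z < p ^ (Nat.log p z + 1) := Nat.lt_pow_succ_log_self hpp.one_lt z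
    refine lt_of_lt_of_le h5 (Nat.pow_le_pow_right hpp.pos ?_)
    have := le_max_right 1 (Nat.log p z)
    omega
  · rcases Nat.lt_or_ge (Nat.log p z) 2 with h6 | h6
    · left; omega
    · right
      rw [max_eq_right (by omega)]
      exact Nat.pow_log_le_self p (by omega)

theorem card_le_DD {n : ℕ} {T : Finset ℕ} (hn : n ≠ 0) (hT : T ⊆ n.divisors)
    (h : ∀ s ∈ T, ∀ t ∈ T, (s : ℝ) ≤ Real.exp 1 * t) : T.card ≤ DD n := by
  rcases T.eq_empty_or_nonempty with rfl | hne
  · simp
  · set d0 := T.min' hne with hd0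
    have hd0T : d0 ∈ T := Finset.min'_mem _ _
    have hsub : T ⊆ n.divisors.filter (fun d' : ℕ => d0 ≤ d' ∧ (d' : ℝ) ≤ Real.exp 1 * d0) := by
      intro t ht
      exact Finset.mem_filter.2 ⟨hT ht, Finset.min'_le _ _ ht, h t ht d0 hd0T⟩
    calc T.card ≤ win n d0 := Finset.card_le_card hsub
      _ ≤ DD n := Finset.le_sup (f := win n) (hT hd0T)

theorem win_le (n d : ℕ) : win n d ≤ n.divisors.card := Finset.card_filter_le _ _

theorem ddm98 : GDDM := by
  refine ⟨fun n T hn hT h => card_le_DD hn hT h, ?_, ?_⟩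
  · intro m n hm hn
    have hmn : m * n ≠ 0 := Nat.mul_ne_zero hm hn
    apply Finset.sup_le
    intro D _
    unfold win
    set W := (m * n).divisors.filter (fun d' : ℕ => D ≤ d' ∧ (d' : ℝ) ≤ Real.exp 1 * D) with hW
    -- fibres over `gcd d' m`
    have hmap : ∀ d' ∈ W, Nat.gcd d' m ∈ m.divisors := fun d' _ =>
      Nat.mem_divisors.2 ⟨Nat.gcd_dvd_right _ _, hm⟩
    rw [Finset.card_eq_sum_card_fiberwise hmap, ← smul_eq_mul, ← Finset.sum_const]
    apply Finset.sum_le_sum
    intro e he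
    have he0 : 0 < e := Nat.pos_of_mem_divisors he
    -- divide by `e`
    set U := W.filter (fun d' => Nat.gcd d' m = e) with hU
    have hinj : Set.InjOn (fun d' => d' / e) (U : Set ℕ) := by
      intro a ha b hb hab
      have ha' := (Finset.mem_filter.1 ha).2
      have hb' := (Finset.mem_filter.1 hb).2
      have h1 : e ∣ a := ha' ▸ Nat.gcd_dvd_left a m
      have h2 : e ∣ b := hb' ▸ Nat.gcd_dvd_left b m
      simp only at hab
      rw [← Nat.div_mul_cancel h1, ← Nat.div_mul_cancel h2, hab]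
    rw [← Finset.card_image_of_injOn hinj]
    apply card_le_DD hn
    · intro t ht
      obtain ⟨d', hd', rfl⟩ := Finset.mem_image.1 ht
      obtain ⟨hd'W, hd'e⟩ := Finset.mem_filter.1 hd'
      have hd'mn : d' ∣ m * n := Nat.dvd_of_mem_divisors (Finset.mem_filter.1 hd'W).1
      have hd'0 : 0 < d' := Nat.pos_of_mem_divisors (Finset.mem_filter.1 hd'W).1
      refine Nat.mem_divisors.2 ⟨?_, hn⟩
      have h3 : d' / e ∣ (m / e) * n := by
        have h4 : e ∣ d' := hd'e ▸ Nat.gcd_dvd_left d' m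
        have h5 : e ∣ m := Nat.dvd_of_mem_divisors he
        have h6 : e * (d' / e) ∣ e * ((m / e) * n) := by
          rw [Nat.mul_div_cancel' h4, ← mul_assoc, Nat.mul_div_cancel' h5]
          exact hd'mn
        exact Nat.dvd_of_mul_dvd_mul_left he0 h6
      have hcop : Nat.Coprime (d' / e) (m / e) := by
        rw [← hd'e]
        exact Nat.coprime_div_gcd_div_gcd (Nat.gcd_pos_of_pos_left m hd'0)
      exact hcop.dvd_of_dvd_mul_left h3
    · intro s hs t ht
      obtain ⟨a, ha, rfl⟩ := Finset.mem_image.1 hs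
      obtain ⟨b, hb, rfl⟩ := Finset.mem_image.1 ht
      obtain ⟨haW, hae⟩ := Finset.mem_filter.1 ha
      obtain ⟨hbW, hbe⟩ := Finset.mem_filter.1 hb
      have h1 : e ∣ a := hae ▸ Nat.gcd_dvd_left a m
      have h2 : e ∣ b := hbe ▸ Nat.gcd_dvd_left b m
      have h3 := (Finset.mem_filter.1 haW).2
      have h4 := (Finset.mem_filter.1 hbW).2
      have he' : (0 : ℝ) < e := by exact_mod_cast he0
      rw [Nat.cast_div h1 he'.ne', Nat.cast_div h2 he'.ne', ← mul_div_assoc]
      apply div_le_div_of_nonneg_right _ he'.le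
      have h5 : (D : ℝ) ≤ b := by exact_mod_cast h4.1
      calc (a : ℝ) ≤ Real.exp 1 * D := h3.2
        _ ≤ Real.exp 1 * b := mul_le_mul_of_nonneg_left h5 (Real.exp_pos _).le
  · intro n
    exact Finset.sup_le fun d _ => win_le n d

end Pool.Agent.Helper98.Lang
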