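import Pool.Agent.Helper98.Lang.Asm0
import Pool.Agent.Helper98.Lang.Pref

/-!
# Multiples of an algebraic number: the theorem
-/

set_option autoImplicit false

namespace Pool.Agent.Helper98.Lang

theorem finalMultiples : Final2 := finalAll pref98 ddm98

end Pool.Agent.Helper98.Lang
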