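import Pool.Agent.Helper98.Lang.Defs

/-!
# Multiples of an algebraic number: the final step
-/

set_option autoImplicit false

open Finset Filter

namespace Pool.Agent.Helper98.Lang

theorem nd_le (x : ℝ) (p : ℤ) : nd x ≤ |x - p| := by
  unfold nd
  exact round_le x p

theorem nd_of_approx {a q : ℕ} {p : ℤ} {ξ c ε : ℝ} (hq : 1 ≤ q)
    (h : |(a : ℝ) * ξ - (p : ℝ) / (q : ℝ)| ≤ c / ((q : ℝ) ^ 2 * Real.log (q : ℝ) ^ (1 + ε))) :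
    nd ((a : ℝ) * q * ξ) ≤ c / (q * Real.log q ^ (1 + ε)) := by
  have hq0 : (0 : ℝ) < q := by exact_mod_cast hq
  refine (nd_le _ p).trans ?_
  have h1 : (a : ℝ) * q * ξ - p = q * ((a : ℝ) * ξ - p / q) := by
    field_simp
  rw [h1, abs_mul, abs_of_pos hq0]
  calc (q : ℝ) * |(a : ℝ) * ξ - p / q|
      ≤ q * (c / ((q : ℝ) ^ 2 * Real.log (q : ℝ) ^ (1 + ε))) :=
        mul_le_mul_of_nonneg_left h hq0.le
    _ = c / (q * Real.log q ^ (1 + ε)) := by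
        by_cases hl : Real.log (q : ℝ) ^ (1 + ε) = 0
        · rw [hl]; simp
        · field_simp

theorem finite_aux (N : ℕ) (P : ℕ → Prop) : {a : ℕ | 1 ≤ a ∧ a ≤ N ∧ P a}.Finite :=
  (Set.finite_Icc 1 N).subset fun a ha => ⟨ha.1, ha.2.1⟩

theorem final (hR : GRoth) (hL : GLarge) (hS : GSmall) : Final := by
  intro ε hε
  obtain ⟨C, hC, hSm⟩ := hS ε hε
  refine ⟨C + 1, ?_⟩
  intro ξ hξ hirr
  have hRoth := hR ξ hξ hirr
  constructor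
  · intro c A hc
    obtain ⟨N1, hN1⟩ := hSm ξ hRoth c hc
    obtain ⟨N2, hN2⟩ := hL ξ hRoth ε (ε / 2) (1 / 4) A c hε (by linarith) (by norm_num) hc
    have htend : Tendsto (fun N : ℕ => Real.log N ^ (ε / 2)) atTop atTop :=
      (tendsto_rpow_atTop (by linarith)).comp
        (Real.tendsto_log_atTop.comp tendsto_natCast_atTop_atTop)
    obtain ⟨N3, hN3⟩ := eventually_atTop.1 (htend.eventually_ge_atTop (1 / c))
    refine ⟨max N1 (max N2 N3), ?_⟩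
    intro N hN
    have h1 := hN1 N (le_trans (le_max_left _ _) hN)
    have h2 := hN2 N (le_trans (le_trans (le_max_left _ _) (le_max_right _ _)) hN)
    have h3 := hN3 N (le_trans (le_trans (le_max_right _ _) (le_max_right _ _)) hN)
    set S1 := {a : ℕ | 1 ≤ a ∧ a ≤ N ∧ ∃ q : ℕ, 2 ≤ q ∧ (q : ℝ) ≤ (N : ℝ) ^ ((1 : ℝ) / 4) ∧
      nd ((a : ℝ) * q * ξ) ≤ c / (q * Real.log q ^ (1 + ε))} with hS1
    set S2 := {a : ℕ | 1 ≤ a ∧ a ≤ N ∧ ∃ q : ℕ, (N : ℝ) ^ ((1 : ℝ) / 4) ≤ q ∧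
      (q : ℝ) ≤ (N : ℝ) ^ A ∧ nd ((a : ℝ) * q * ξ) ≤ c / (q * Real.log q ^ (1 + ε))} with hS2
    have hsub : {a : ℕ | 1 ≤ a ∧ a ≤ N ∧ ∃ (p : ℤ) (q : ℕ), 2 ≤ q ∧ (q : ℝ) ≤ (N : ℝ) ^ A ∧
      |(a : ℝ) * ξ - (p : ℝ) / (q : ℝ)| ≤
        c / ((q : ℝ) ^ 2 * Real.log (q : ℝ) ^ (1 + ε))} ⊆ S1 ∪ S2 := by
      rintro a ⟨ha1, haN, p, q, hq2, hqA, hap⟩
      have hnd := nd_of_approx (by omega) hap
      rcases le_total (q : ℝ) ((N : ℝ) ^ ((1 : ℝ) / 4)) with h | h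
      · exact Or.inl ⟨ha1, haN, q, hq2, h, hnd⟩
      · exact Or.inr ⟨ha1, haN, q, h, hqA, hnd⟩
    have hf1 : S1.Finite := finite_aux N _
    have hf2 : S2.Finite := finite_aux N _
    have hle : (({a : ℕ | 1 ≤ a ∧ a ≤ N ∧ ∃ (p : ℤ) (q : ℕ), 2 ≤ q ∧ (q : ℝ) ≤ (N : ℝ) ^ A ∧
      |(a : ℝ) * ξ - (p : ℝ) / (q : ℝ)| ≤
        c / ((q : ℝ) ^ 2 * Real.log (q : ℝ) ^ (1 + ε))}.ncard : ℕ) : ℝ)
        ≤ (S1.ncard : ℝ) + S2.ncard := by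
      have := (Set.ncard_le_ncard hsub (hf1.union hf2)).trans (Set.ncard_union_le S1 S2)
      exact_mod_cast this
    have h4 : (N : ℝ) / Real.log N ^ (ε / 2) ≤ c * N := by
      have hpos : 0 < Real.log (N : ℝ) ^ (ε / 2) := lt_of_lt_of_le (by positivity) h3
      rw [div_le_iff₀ hpos]
      have h5 : 1 ≤ c * Real.log (N : ℝ) ^ (ε / 2) := by
        rw [div_le_iff₀ hc] at h3
        linarith
      have hN0 : (0 : ℝ) ≤ N := Nat.cast_nonneg N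
      nlinarith
    calc _ ≤ (S1.ncard : ℝ) + S2.ncard := hle
      _ ≤ C * c * N + N / Real.log N ^ (ε / 2) := add_le_add h1 h2
      _ ≤ C * c * N + c * N := by linarith
      _ = (C + 1) * c * N := by ring
  · intro ε' κ A c hε' hκ hc
    obtain ⟨N2, hN2⟩ := hL ξ hRoth ε ε' κ A c hε hε' hκ hc
    refine ⟨max N2 2, ?_⟩
    intro N hN
    have hN2' : N2 ≤ N := le_trans (le_max_left _ _) hN
    have hN1 : 2 ≤ N := le_trans (le_max_right _ _) hN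
    refine le_trans ?_ (hN2 N hN2')
    have hsub : {a : ℕ | 1 ≤ a ∧ a ≤ N ∧ ∃ (p : ℤ) (q : ℕ), (N : ℝ) ^ κ ≤ q ∧
        (q : ℝ) ≤ (N : ℝ) ^ A ∧ |(a : ℝ) * ξ - (p : ℝ) / (q : ℝ)| ≤
        c / ((q : ℝ) ^ 2 * Real.log (q : ℝ) ^ (1 + ε))} ⊆
        {a : ℕ | 1 ≤ a ∧ a ≤ N ∧ ∃ q : ℕ, (N : ℝ) ^ κ ≤ q ∧ (q : ℝ) ≤ (N : ℝ) ^ A ∧
          nd ((a : ℝ) * q * ξ) ≤ c / (q * Real.log q ^ (1 + ε))} := by
      rintro a ⟨ha1, haN, p, q, hq1, hqA, hap⟩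
      have hq : 1 ≤ q := by
        have h1 : (1 : ℝ) ≤ (N : ℝ) ^ κ :=
          Real.one_le_rpow (by exact_mod_cast (by omega : 1 ≤ N)) hκ.le
        have h2 : (1 : ℝ) ≤ q := h1.trans hq1
        exact_mod_cast h2
      exact ⟨ha1, haN, q, hq1, hqA, nd_of_approx hq hap⟩
    exact_mod_cast Set.ncard_le_ncard hsub (finite_aux N _)

end Pool.Agent.Helper98.Lang
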