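import Pool.Agent.Helper98.Lang.Final
import Pool.Agent.Helper59.Lang.Small

/-!
# Multiples of an algebraic number: uniformity in the lower end of the range of denominators
-/

set_option autoImplicit false

open Finset Filter

namespace Pool.Agent.Helper98.Lang

open Pool.Agent.Helper59.Lang Pool.Agent.Helper92.Avg

/-- Small denominators `Q ≤ q ≤ N ^ (1/4)`. -/
def GSmall2 : Prop := ∀ ε ε' : ℝ, 0 < ε → 0 ≤ ε' → ε' < ε → ∃ C : ℝ, 0 < C ∧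
  ∀ ξ : ℝ, RothP ξ → ∀ c : ℝ, 0 < c → ∃ N0 : ℕ, ∀ N : ℕ, N0 ≤ N → ∀ Q : ℝ, 2 ≤ Q →
    Q ≤ (N : ℝ) ^ ((1 : ℝ) / 4) →
    ({a : ℕ | 1 ≤ a ∧ a ≤ N ∧ ∃ q : ℕ, Q ≤ q ∧ (q : ℝ) ≤ (N : ℝ) ^ ((1 : ℝ) / 4) ∧
      nd ((a : ℝ) * q * ξ) ≤ c / (q * Real.log q ^ (1 + ε))}.ncard : ℝ)
      ≤ C * c * N / Real.log Q ^ ε'

open Classical in
theorem small2 : GFej → GSmall2 := by
  intro hF ε ε' hε hε'0 hε'
  have hε2 : 0 < ε - ε' := by linarith
  have hZ := Zsum_nonneg (ε - ε')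
  refine ⟨12 * Zsum (ε - ε') + 1, by linarith, ?_⟩
  intro ξ hξ c hc
  obtain ⟨C1, hC1, hcount⟩ := count_le hF hε hξ
  set K : ℝ := (1 + ε) ^ (1 + ε) with hK
  have hK0 : 0 < K := Real.rpow_pos_of_pos (by linarith) _
  set C2 : ℝ := C1 * (K / (2 * c)) ^ (1 / 4 : ℝ) with hC2
  have hC20 : 0 < C2 := by positivity
  -- the choice of N0
  have hlim : ∀ᶠ N : ℕ in atTop, C2 * Real.log (N : ℝ) ^ ε' ≤ c * (N : ℝ) ^ (5 / 16 : ℝ) := by
    have h1 := (isLittleO_log_rpow_rpow_atTop ε' (show (0 : ℝ) < 5 / 16 by norm_num)).bound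
      (show 0 < c / C2 by positivity)
    have h2 := tendsto_natCast_atTop_atTop.eventually (h1.and (eventually_ge_atTop (1 : ℝ)))
    filter_upwards [h2] with N hN
    obtain ⟨h3, h4⟩ := hN
    have h5 : 0 ≤ Real.log (N : ℝ) := Real.log_nonneg h4
    rw [Real.norm_of_nonneg (Real.rpow_nonneg h5 _),
      Real.norm_of_nonneg (Real.rpow_nonneg (by linarith) _)] at h3
    calc C2 * Real.log (N : ℝ) ^ ε' ≤ C2 * (c / C2 * (N : ℝ) ^ (5 / 16 : ℝ)) :=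
          mul_le_mul_of_nonneg_left h3 hC20.le
      _ = c * (N : ℝ) ^ (5 / 16 : ℝ) := by field_simp
  obtain ⟨N0, hN0⟩ := Filter.eventually_atTop.1 hlim
  refine ⟨max N0 1, fun N hN Q hQ2 hQN => ?_⟩
  have hN1 : 1 ≤ N := (le_max_right _ _).trans hN
  have hNr : (1 : ℝ) ≤ N := by exact_mod_cast hN1
  have hNpos : (0 : ℝ) < N := by linarith
  have hlogQ : 0 < Real.log Q := Real.log_pos (by linarith)
  set x : ℝ := (N : ℝ) ^ ((1 : ℝ) / 4) with hx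
  have hx0 : 0 < x := Real.rpow_pos_of_pos hNpos _
  have hxN : x ≤ N := by
    rw [hx]
    nth_rewrite 2 [← Real.rpow_one (N : ℝ)]
    exact Real.rpow_le_rpow_of_exponent_le hNr (by norm_num)
  set M : ℕ := ⌊x⌋₊ with hM
  have hMx : (M : ℝ) ≤ x := Nat.floor_le hx0.le
  let S : ℕ → Finset ℕ := fun q => (Icc 1 N).filter (fun a : ℕ =>
        nd ((a : ℝ) * q * ξ) ≤ c / (q * Real.log q ^ (1 + ε)))
  let I : Finset ℕ := (Icc 2 M).filter (fun q : ℕ => Q ≤ q)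
  have hsub : {a : ℕ | 1 ≤ a ∧ a ≤ N ∧ ∃ q : ℕ, Q ≤ q ∧ (q : ℝ) ≤ x ∧
      nd ((a : ℝ) * q * ξ) ≤ c / (q * Real.log q ^ (1 + ε))} ⊆
        ((I.biUnion S : Finset ℕ) : Set ℕ) := by
    rintro a ⟨h1, h2, q, h3, h4, h5⟩
    rw [Finset.mem_coe, Finset.mem_biUnion]
    have hq2 : (2 : ℝ) ≤ q := hQ2.trans h3
    refine ⟨q, Finset.mem_filter.2 ⟨Finset.mem_Icc.2 ⟨by exact_mod_cast hq2, Nat.le_floor h4⟩, h3⟩,
      ?_⟩
    exact Finset.mem_filter.2 ⟨Finset.mem_Icc.2 ⟨h1, h2⟩, h5⟩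
  have hcard : ({a : ℕ | 1 ≤ a ∧ a ≤ N ∧ ∃ q : ℕ, Q ≤ q ∧ (q : ℝ) ≤ x ∧
      nd ((a : ℝ) * q * ξ) ≤ c / (q * Real.log q ^ (1 + ε))}.ncard : ℝ) ≤
      ∑ q ∈ I, ((S q).card : ℝ) := by
    have h1 := Set.ncard_le_ncard hsub (Finset.finite_toSet _)
    rw [Set.ncard_coe_finset] at h1
    have h2 := h1.trans (Finset.card_biUnion_le (s := I) (t := S))
    exact_mod_cast h2
  refine hcard.trans ?_
  have hterm : ∀ q ∈ I, ((S q).card : ℝ) ≤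
      12 * c * N * (phi (ε - ε') q / Real.log Q ^ ε') +
      C2 * x ^ (1 / 2 : ℝ) * x ^ (1 + 1 / 4 : ℝ) := by
    intro q hq
    obtain ⟨hq', hQq⟩ := Finset.mem_filter.1 hq
    rw [Finset.mem_Icc] at hq'
    have h1 := hcount c hc N q hq'.1
    refine h1.trans ?_
    have hqx : (q : ℝ) ≤ x := by
      have : (q : ℝ) ≤ M := by exact_mod_cast hq'.2
      linarith
    have hq0 : (0 : ℝ) ≤ q := by positivity
    have h2 : (K * (q : ℝ) ^ 2 / (2 * c)) ^ (1 / 4 : ℝ) ≤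
        (K / (2 * c)) ^ (1 / 4 : ℝ) * x ^ (1 / 2 : ℝ) := by
      have h3 : (K * (q : ℝ) ^ 2 / (2 * c)) ^ (1 / 4 : ℝ) ≤ (K / (2 * c) * x ^ 2) ^ (1 / 4 : ℝ) := by
        apply Real.rpow_le_rpow (by positivity) _ (by norm_num)
        rw [mul_div_right_comm]
        exact mul_le_mul_of_nonneg_left (pow_le_pow_left₀ hq0 hqx 2) (by positivity)
      refine h3.trans_eq ?_
      rw [Real.mul_rpow (by positivity) (by positivity), ← Real.rpow_natCast x 2,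
        ← Real.rpow_mul hx0.le]
      norm_num
    have h4 : (q : ℝ) ^ (1 + 1 / 4 : ℝ) ≤ x ^ (1 + 1 / 4 : ℝ) :=
      Real.rpow_le_rpow hq0 hqx (by norm_num)
    have h5 : C1 * (K * (q : ℝ) ^ 2 / (2 * c)) ^ (1 / 4 : ℝ) ≤ C2 * x ^ (1 / 2 : ℝ) := by
      rw [hC2, mul_assoc]
      exact mul_le_mul_of_nonneg_left h2 hC1.le
    have h6 : C1 * (K * (q : ℝ) ^ 2 / (2 * c)) ^ (1 / 4 : ℝ) * (q : ℝ) ^ (1 + 1 / 4 : ℝ) ≤
        C2 * x ^ (1 / 2 : ℝ) * x ^ (1 + 1 / 4 : ℝ) :=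
      mul_le_mul h5 h4 (by positivity) (by positivity)
    have h7 : phi ε q ≤ phi (ε - ε') q / Real.log Q ^ ε' := by
      rw [phi_eq ε hq'.1, phi_eq (ε - ε') hq'.1]
      have hq2 : (2 : ℝ) ≤ q := by exact_mod_cast hq'.1
      have hlq : 0 < Real.log (q : ℝ) := Real.log_pos (by linarith)
      have h8 : Real.log (q : ℝ) ^ (1 + ε) =
          Real.log (q : ℝ) ^ (1 + (ε - ε')) * Real.log (q : ℝ) ^ ε' := by
        rw [← Real.rpow_add hlq]; ring_nf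
      have h9 : Real.log Q ^ ε' ≤ Real.log (q : ℝ) ^ ε' :=
        Real.rpow_le_rpow hlogQ.le (Real.log_le_log (by linarith) hQq) hε'0
      have h10 : 0 < Real.log (q : ℝ) ^ (1 + (ε - ε')) := Real.rpow_pos_of_pos hlq _
      have h11 : 0 < Real.log Q ^ ε' := Real.rpow_pos_of_pos hlogQ _
      rw [h8, div_div]
      apply div_le_div_of_nonneg_left (by norm_num) (by positivity)
      calc (q : ℝ) * Real.log (q : ℝ) ^ (1 + (ε - ε')) * Real.log Q ^ ε'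
          ≤ (q : ℝ) * Real.log (q : ℝ) ^ (1 + (ε - ε')) * Real.log (q : ℝ) ^ ε' :=
            mul_le_mul_of_nonneg_left h9 (by positivity)
        _ = _ := by ring
    have h12 : 12 * c * N * phi ε q ≤ 12 * c * N * (phi (ε - ε') q / Real.log Q ^ ε') :=
      mul_le_mul_of_nonneg_left h7 (by positivity)
    linarith
  refine (Finset.sum_le_sum hterm).trans ?_
  rw [Finset.sum_add_distrib, ← Finset.mul_sum, Finset.sum_const, nsmul_eq_mul,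
    ← Finset.sum_div]
  have hlQpos : 0 < Real.log Q ^ ε' := Real.rpow_pos_of_pos hlogQ _
  have h1 : ∑ q ∈ I, phi (ε - ε') q ≤ Zsum (ε - ε') :=
    (summable_phi hε2).sum_le_tsum _ (fun q _ => (phi_pos (ε - ε') q).le)
  have h2 : 12 * c * N * ((∑ q ∈ I, phi (ε - ε') q) / Real.log Q ^ ε') ≤
      12 * c * N * (Zsum (ε - ε') / Real.log Q ^ ε') :=
    mul_le_mul_of_nonneg_left (div_le_div_of_nonneg_right h1 hlQpos.le) (by positivity)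
  have h3 : (I.card : ℝ) ≤ x := by
    have h31 : I.card ≤ (Icc 2 M).card := Finset.card_filter_le _ _
    rw [Nat.card_Icc] at h31
    have : (I.card : ℝ) ≤ M := by
      have : I.card ≤ M := by omega
      exact_mod_cast this
    linarith
  have h4 : (I.card : ℝ) * (C2 * x ^ (1 / 2 : ℝ) * x ^ (1 + 1 / 4 : ℝ)) ≤
      c * N / Real.log Q ^ ε' := by
    have h5 : (I.card : ℝ) * (C2 * x ^ (1 / 2 : ℝ) * x ^ (1 + 1 / 4 : ℝ)) ≤
        x * (C2 * x ^ (1 / 2 : ℝ) * x ^ (1 + 1 / 4 : ℝ)) :=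
      mul_le_mul_of_nonneg_right h3 (by positivity)
    refine h5.trans ?_
    have h6 : x * (C2 * x ^ (1 / 2 : ℝ) * x ^ (1 + 1 / 4 : ℝ)) = C2 * (N : ℝ) ^ (11 / 16 : ℝ) := by
      have h7 : x * (x ^ (1 / 2 : ℝ) * x ^ (1 + 1 / 4 : ℝ)) = x ^ (11 / 4 : ℝ) := by
        rw [← Real.rpow_add hx0]
        nth_rewrite 1 [← Real.rpow_one x]
        rw [← Real.rpow_add hx0]
        norm_num
      calc x * (C2 * x ^ (1 / 2 : ℝ) * x ^ (1 + 1 / 4 : ℝ))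
          = C2 * (x * (x ^ (1 / 2 : ℝ) * x ^ (1 + 1 / 4 : ℝ))) := by ring
        _ = C2 * x ^ (11 / 4 : ℝ) := by rw [h7]
        _ = C2 * (N : ℝ) ^ (11 / 16 : ℝ) := by
          rw [hx, ← Real.rpow_mul hNpos.le]; norm_num
    rw [h6, le_div_iff₀ hlQpos]
    have h8 := hN0 N ((le_max_left _ _).trans hN)
    have h9 : (N : ℝ) ^ (5 / 16 : ℝ) * (N : ℝ) ^ (11 / 16 : ℝ) = N := by
      rw [← Real.rpow_add hNpos]; norm_num
    have h10 : Real.log Q ^ ε' ≤ Real.log (N : ℝ) ^ ε' :=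
      Real.rpow_le_rpow hlogQ.le (Real.log_le_log (by linarith) (hQN.trans hxN)) hε'0
    calc C2 * (N : ℝ) ^ (11 / 16 : ℝ) * Real.log Q ^ ε'
        ≤ C2 * (N : ℝ) ^ (11 / 16 : ℝ) * Real.log (N : ℝ) ^ ε' :=
          mul_le_mul_of_nonneg_left h10 (by positivity)
      _ = C2 * Real.log (N : ℝ) ^ ε' * (N : ℝ) ^ (11 / 16 : ℝ) := by ring
      _ ≤ c * (N : ℝ) ^ (5 / 16 : ℝ) * (N : ℝ) ^ (11 / 16 : ℝ) :=
          mul_le_mul_of_nonneg_right h8 (by positivity)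
      _ = c * N := by rw [mul_assoc, h9]
  have h10 : (12 * Zsum (ε - ε') + 1) * c * N / Real.log Q ^ ε' =
      12 * c * N * (Zsum (ε - ε') / Real.log Q ^ ε') + c * N / Real.log Q ^ ε' := by ring
  rw [h10]
  exact add_le_add h2 h4

/-- the final statement -/
def Final2 : Prop := ∀ ε ε' : ℝ, 0 < ε → 0 ≤ ε' → ε' < ε → ∃ C : ℝ, ∀ ξ : ℝ, IsAlgebraic ℚ ξ →
  Irrational ξ → ∀ c A : ℝ, 0 < c → ∃ N0 : ℕ, ∀ N : ℕ, N0 ≤ N → ∀ Q : ℝ, 2 ≤ Q →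
    ({a : ℕ | 1 ≤ a ∧ a ≤ N ∧ ∃ (p : ℤ) (q : ℕ), Q ≤ q ∧ (q : ℝ) ≤ (N : ℝ) ^ A ∧
      |(a : ℝ) * ξ - (p : ℝ) / (q : ℝ)| ≤ c / ((q : ℝ) ^ 2 * Real.log (q : ℝ) ^ (1 + ε))}.ncard : ℝ)
      ≤ C * c * N / Real.log Q ^ ε'

theorem final2 (hR : GRoth) (hL : GLarge) (hS : GSmall2) : Final2 := by
  intro ε ε' hε hε'0 hε'
  obtain ⟨C, hC, hSm⟩ := hS ε ε' hε hε'0 hε'
  refine ⟨C + 1, ?_⟩
  intro ξ hξ hirr c A hc
  have hRoth := hR ξ hξ hirr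
  obtain ⟨N1, hN1⟩ := hSm ξ hRoth c hc
  set ε2 : ℝ := (ε + ε') / 2 with hε2
  obtain ⟨N2, hN2⟩ := hL ξ hRoth ε ε2 (1 / 4) A c hε (by rw [hε2]; linarith) (by norm_num) hc
  set B : ℝ := max A 1 with hB
  have hB1 : 1 ≤ B := le_max_right _ _
  have hgap : 0 < ε2 - ε' := by rw [hε2]; linarith
  have htend : Tendsto (fun N : ℕ => Real.log N ^ (ε2 - ε')) atTop atTop :=
    (tendsto_rpow_atTop hgap).comp
      (Real.tendsto_log_atTop.comp tendsto_natCast_atTop_atTop)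
  obtain ⟨N3, hN3⟩ := eventually_atTop.1 (htend.eventually_ge_atTop (B ^ ε' / c))
  refine ⟨max (max N1 3) (max N2 N3), ?_⟩
  intro N hN Q hQ
  have h1 := hN1 N (le_trans (le_trans (le_max_left _ _) (le_max_left _ _)) hN)
  have h2 := hN2 N (le_trans (le_trans (le_max_left _ _) (le_max_right _ _)) hN)
  have h3 := hN3 N (le_trans (le_trans (le_max_right _ _) (le_max_right _ _)) hN)
  have hN3' : 3 ≤ N := le_trans (le_trans (le_max_right _ _) (le_max_left _ _)) hN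
  have hNr : (3 : ℝ) ≤ N := by exact_mod_cast hN3'
  have hlogN : 0 < Real.log (N : ℝ) := Real.log_pos (by linarith)
  have hlogQ : 0 < Real.log Q := Real.log_pos (by linarith)
  have hlQpos : 0 < Real.log Q ^ ε' := Real.rpow_pos_of_pos hlogQ _
  have hNpos : (0 : ℝ) < N := by linarith
  -- `N / log N ^ ε2 ≤ c N / log Q ^ ε'` for `Q ≤ N ^ B`
  have h4 : Q ≤ (N : ℝ) ^ B → (N : ℝ) / Real.log N ^ ε2 ≤ c * N / Real.log Q ^ ε' := by
    intro hQB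
    have h5 : Real.log Q ≤ B * Real.log N := by
      have := Real.log_le_log (by linarith) hQB
      rwa [Real.log_rpow hNpos] at this
    have h6 : Real.log Q ^ ε' ≤ B ^ ε' * Real.log (N : ℝ) ^ ε' := by
      rw [← Real.mul_rpow (by linarith) hlogN.le]
      exact Real.rpow_le_rpow hlogQ.le h5 hε'0
    have h7 : Real.log (N : ℝ) ^ ε2 = Real.log (N : ℝ) ^ ε' * Real.log (N : ℝ) ^ (ε2 - ε') := by
      rw [← Real.rpow_add hlogN]; ring_nf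
    have h8 : B ^ ε' ≤ c * Real.log (N : ℝ) ^ (ε2 - ε') := by
      rw [div_le_iff₀ hc] at h3
      linarith
    have h9 : 0 < Real.log (N : ℝ) ^ ε' := Real.rpow_pos_of_pos hlogN _
    have h10 : 0 < Real.log (N : ℝ) ^ ε2 := Real.rpow_pos_of_pos hlogN _
    rw [div_le_div_iff₀ h10 hlQpos]
    calc (N : ℝ) * Real.log Q ^ ε' ≤ N * (B ^ ε' * Real.log (N : ℝ) ^ ε') :=
          mul_le_mul_of_nonneg_left h6 hNpos.le
      _ = B ^ ε' * (N * Real.log (N : ℝ) ^ ε') := by ring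
      _ ≤ c * Real.log (N : ℝ) ^ (ε2 - ε') * (N * Real.log (N : ℝ) ^ ε') :=
          mul_le_mul_of_nonneg_right h8 (by positivity)
      _ = c * N * Real.log (N : ℝ) ^ ε2 := by rw [h7]; ring
  set S2 := {a : ℕ | 1 ≤ a ∧ a ≤ N ∧ ∃ q : ℕ, (N : ℝ) ^ ((1 : ℝ) / 4) ≤ q ∧
    (q : ℝ) ≤ (N : ℝ) ^ A ∧ nd ((a : ℝ) * q * ξ) ≤ c / (q * Real.log q ^ (1 + ε))} with hS2
  have hf2 : S2.Finite := finite_aux N _
  have hone : (1 : ℝ) ≤ N := by linarith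
  have hx1 : (1 : ℝ) ≤ (N : ℝ) ^ ((1 : ℝ) / 4) := Real.one_le_rpow hone (by norm_num)
  have hq1 : ∀ q : ℕ, Q ≤ q → 1 ≤ q := by
    intro q hq
    have : (1 : ℝ) ≤ q := by linarith
    exact_mod_cast this
  rcases le_or_gt Q ((N : ℝ) ^ ((1 : ℝ) / 4)) with hQN | hQN
  · set S1 := {a : ℕ | 1 ≤ a ∧ a ≤ N ∧ ∃ q : ℕ, Q ≤ q ∧ (q : ℝ) ≤ (N : ℝ) ^ ((1 : ℝ) / 4) ∧
      nd ((a : ℝ) * q * ξ) ≤ c / (q * Real.log q ^ (1 + ε))} with hS1
    have hf1 : S1.Finite := finite_aux N _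
    have hsub : {a : ℕ | 1 ≤ a ∧ a ≤ N ∧ ∃ (p : ℤ) (q : ℕ), Q ≤ q ∧ (q : ℝ) ≤ (N : ℝ) ^ A ∧
      |(a : ℝ) * ξ - (p : ℝ) / (q : ℝ)| ≤
        c / ((q : ℝ) ^ 2 * Real.log (q : ℝ) ^ (1 + ε))} ⊆ S1 ∪ S2 := by
      rintro a ⟨ha1, haN, p, q, hq2, hqA, hap⟩
      have hnd := nd_of_approx (hq1 q hq2) hap
      rcases le_total (q : ℝ) ((N : ℝ) ^ ((1 : ℝ) / 4)) with h | h
      · exact Or.inl ⟨ha1, haN, q, hq2, h, hnd⟩
      · exact Or.inr ⟨ha1, haN, q, h, hqA, hnd⟩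
    have hle : (({a : ℕ | 1 ≤ a ∧ a ≤ N ∧ ∃ (p : ℤ) (q : ℕ), Q ≤ q ∧ (q : ℝ) ≤ (N : ℝ) ^ A ∧
      |(a : ℝ) * ξ - (p : ℝ) / (q : ℝ)| ≤
        c / ((q : ℝ) ^ 2 * Real.log (q : ℝ) ^ (1 + ε))}.ncard : ℕ) : ℝ)
        ≤ (S1.ncard : ℝ) + S2.ncard := by
      have := (Set.ncard_le_ncard hsub (hf1.union hf2)).trans (Set.ncard_union_le S1 S2)
      exact_mod_cast this
    have hQB : Q ≤ (N : ℝ) ^ B := by
      refine hQN.trans ?_
      apply Real.rpow_le_rpow_of_exponent_le hone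
      linarith
    calc _ ≤ (S1.ncard : ℝ) + S2.ncard := hle
      _ ≤ C * c * N / Real.log Q ^ ε' + N / Real.log N ^ ε2 := add_le_add (h1 Q hQ hQN) h2
      _ ≤ C * c * N / Real.log Q ^ ε' + c * N / Real.log Q ^ ε' := by
          have := h4 hQB
          linarith
      _ = (C + 1) * c * N / Real.log Q ^ ε' := by ring
  · rcases le_or_gt Q ((N : ℝ) ^ B) with hQB | hQB
    · have hsub : {a : ℕ | 1 ≤ a ∧ a ≤ N ∧ ∃ (p : ℤ) (q : ℕ), Q ≤ q ∧ (q : ℝ) ≤ (N : ℝ) ^ A ∧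
        |(a : ℝ) * ξ - (p : ℝ) / (q : ℝ)| ≤
          c / ((q : ℝ) ^ 2 * Real.log (q : ℝ) ^ (1 + ε))} ⊆ S2 := by
        rintro a ⟨ha1, haN, p, q, hq2, hqA, hap⟩
        have hnd := nd_of_approx (hq1 q hq2) hap
        exact ⟨ha1, haN, q, hQN.le.trans hq2, hqA, hnd⟩
      have hle : (({a : ℕ | 1 ≤ a ∧ a ≤ N ∧ ∃ (p : ℤ) (q : ℕ), Q ≤ q ∧ (q : ℝ) ≤ (N : ℝ) ^ A ∧
        |(a : ℝ) * ξ - (p : ℝ) / (q : ℝ)| ≤
          c / ((q : ℝ) ^ 2 * Real.log (q : ℝ) ^ (1 + ε))}.ncard : ℕ) : ℝ) ≤ S2.ncard := by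
        exact_mod_cast Set.ncard_le_ncard hsub hf2
      refine (hle.trans h2).trans ((h4 hQB).trans ?_)
      apply div_le_div_of_nonneg_right _ hlQpos.le
      have : 0 ≤ C * c * N := by positivity
      nlinarith
    · have hempty : {a : ℕ | 1 ≤ a ∧ a ≤ N ∧ ∃ (p : ℤ) (q : ℕ), Q ≤ q ∧ (q : ℝ) ≤ (N : ℝ) ^ A ∧
        |(a : ℝ) * ξ - (p : ℝ) / (q : ℝ)| ≤
          c / ((q : ℝ) ^ 2 * Real.log (q : ℝ) ^ (1 + ε))} = ∅ := by
        ext a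
        simp only [Set.mem_setOf_eq, Set.mem_empty_iff_false, iff_false]
        rintro ⟨-, -, p, q, hq2, hqA, -⟩
        have h5 : (N : ℝ) ^ A ≤ (N : ℝ) ^ B :=
          Real.rpow_le_rpow_of_exponent_le hone (le_max_left _ _)
        linarith
      rw [hempty, Set.ncard_empty]
      have : 0 ≤ (C + 1) * c * N / Real.log Q ^ ε' := by positivity
      exact_mod_cast this

end Pool.Agent.Helper98.Lang
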